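import Mathlib
import Pool.Agent.H2.SchemeDefs
import Pool.Agent.H2.SchemeProof

namespace Pool.Agent.Results.MP_44674b_co.Wreath

open Finset Matrix
open Pool.Agent.H2.Scheme


/-- For m, n ≥ 2 with m ≠ n the 2-class scheme of m disjoint copies of K_n is an exactly triply
regular symmetric association scheme that is not formally self-dual. -/
theorem result (m n : ℕ) (hm : 2 ≤ m) (hn : 2 ≤ n) (hmn : m ≠ n) :
    IsScheme (d := 2) (wreath m n) ∧ ExactlyTriplyRegular (d := 2) (wreath m n) ∧
      ¬ FormallySelfDual (d := 2) (wreath m n) :=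
  ⟨scheme_wreath hm hn, exact_wreath, not_fsd hm hn hmn⟩

end Pool.Agent.Results.MP_44674b_co.Wreath
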